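import Mathlib

open MvPolynomial Matrix

namespace H11.HN

variable {n : ℕ}

/-- The Hessian matrix. -/
noncomputable def hes (P : MvPolynomial (Fin n) ℂ) :
    Matrix (Fin n) (Fin n) (MvPolynomial (Fin n) ℂ) :=
  .of fun i j => pderiv i (pderiv j P)

/-- `z + ∇P` is the (two-sided) inverse map of `z - ∇P`. -/
def SelfInv (P : MvPolynomial (Fin n) ℂ) : Prop :=
  ∀ i, aeval (fun j => X j + pderiv j P) (X i - pderiv i P) = X i ∧
    aeval (fun j => X j - pderiv j P) (X i + pderiv i P) = X i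

/-- `h_α(z) = ⟨α, z⟩`. -/
noncomputable def lin (α : Fin n → ℂ) : MvPolynomial (Fin n) ℂ := ∑ i, C (α i) * X i

/-- `f ∈ 𝒜_Ξ`: the power series `f` is approximated to every order by polynomials in the `h_α`. -/
def InA (Ξ : Set (Fin n → ℂ)) (f : MvPowerSeries (Fin n) ℂ) : Prop :=
  ∀ N : ℕ, ∃ q ∈ Algebra.adjoin ℂ (lin '' Ξ), ∀ m : Fin n →₀ ℕ, m.degree < N →
    coeff m q = MvPowerSeries.coeff m f

theorem vec_mem (Ξ : Set (Fin n → ℂ)) (q : MvPolynomial (Fin n) ℂ)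
    (hq : q ∈ Algebra.adjoin ℂ (lin '' Ξ)) :
    ∀ m, (fun i => coeff m (pderiv i q)) ∈ Submodule.span ℂ Ξ := by
  classical
  induction hq using Algebra.adjoin_induction with
  | mem x hx =>
    obtain ⟨α, hα, rfl⟩ := hx
    intro m
    convert Submodule.smul_mem _ (if 0 = m then (1 : ℂ) else 0) (Submodule.subset_span hα) using 1
    ext i
    simp [lin, Pi.single_apply, apply_ite (coeff m), coeff_one]
  | algebraMap r => intro m; simp; exact Submodule.zero_mem _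
  | add x y _ _ hx hy =>
    intro m
    simp only [map_add, coeff_add]
    exact Submodule.add_mem _ (hx m) (hy m)
  | mul x y _ _ hx hy =>
    intro m
    convert Submodule.add_mem _
      (Submodule.sum_mem _ fun p (_ : p ∈ Finset.HasAntidiagonal.antidiagonal m) =>
        Submodule.smul_mem _ (coeff p.1 x) (hy p.2))
      (Submodule.sum_mem _ fun p (_ : p ∈ Finset.HasAntidiagonal.antidiagonal m) =>
        Submodule.smul_mem _ (coeff p.1 y) (hx p.2)) using 1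
    ext i
    simp [coeff_mul, Finset.sum_apply]

theorem iso (Ξ : Set (Fin n → ℂ)) (h : ∀ α ∈ Ξ, ∀ β ∈ Ξ, α ⬝ᵥ β = 0) (u v : Fin n → ℂ)
    (hu : u ∈ Submodule.span ℂ Ξ) (hv : v ∈ Submodule.span ℂ Ξ) : u ⬝ᵥ v = 0 := by
  induction hu, hv using Submodule.span_induction₂ <;> simp_all [add_dotProduct, dotProduct_add]

theorem line (p : MvPolynomial (Fin 5) ℂ) :
    coeff (Finsupp.single 0 2) p = (aeval ![Polynomial.X, 0, 0, 0, 0] p : Polynomial ℂ).coeff 2 := by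
  induction p using MvPolynomial.induction_on' with
  | add p q hp hq => simp [hp, hq]
  | monomial m a =>
    have : m = Finsupp.single 0 2 ↔ m 0 = 2 ∧ m 1 = 0 ∧ m 2 = 0 ∧ m 3 = 0 ∧ m 4 = 0 := by
      simp [Finsupp.ext_iff, Fin.forall_fin_succ]
    rw [aeval_monomial, Finsupp.prod_fintype _ _ (by simp), Fin.prod_univ_five, coeff_monomial]
    simp only [this]
    by_cases m 1 = 0 <;> by_cases m 2 = 0 <;> by_cases m 3 = 0 <;> by_cases m 4 = 0 <;>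
      simp [*, Polynomial.coeff_X_pow, @eq_comm _ 2]

noncomputable def P0 : MvPolynomial (Fin 5) ℂ :=
  (X 0 + (C Complex.I : MvPolynomial (Fin 5) ℂ) * X 1 : MvPolynomial (Fin 5) ℂ) * (X 2 + (C Complex.I : MvPolynomial (Fin 5) ℂ) * X 3) + C 2 * (X 0 + (C Complex.I : MvPolynomial (Fin 5) ℂ) * X 1 : MvPolynomial (Fin 5) ℂ) ^ 2 * X 4 - (X 0 + (C Complex.I : MvPolynomial (Fin 5) ℂ) * X 1 : MvPolynomial (Fin 5) ℂ) ^ 3 * (X 2 - (C Complex.I : MvPolynomial (Fin 5) ℂ) * X 3)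

theorem hJ : (C Complex.I : MvPolynomial (Fin 5) ℂ) * (C Complex.I : MvPolynomial (Fin 5) ℂ) = -1 := by rw [← C_mul]; simp

theorem pd (i : Fin 5) : pderiv i (2 : MvPolynomial (Fin 5) ℂ) = 0 ∧
    pderiv i (3 : MvPolynomial (Fin 5) ℂ) = 0 ∧ pderiv i (4 : MvPolynomial (Fin 5) ℂ) = 0 :=
  ⟨pderiv_C (a := (2 : ℂ)), pderiv_C (a := (3 : ℂ)), pderiv_C (a := (4 : ℂ))⟩

theorem grad (i : Fin 5) :
    pderiv i P0 = ![(X 2 + (C Complex.I : MvPolynomial (Fin 5) ℂ) * X 3 + 4 * (X 0 + (C Complex.I : MvPolynomial (Fin 5) ℂ) * X 1 : MvPolynomial (Fin 5) ℂ) * X 4 - 3 * (X 0 + (C Complex.I : MvPolynomial (Fin 5) ℂ) * X 1 : MvPolynomial (Fin 5) ℂ) ^ 2 * (X 2 - (C Complex.I : MvPolynomial (Fin 5) ℂ) * X 3) : MvPolynomial (Fin 5) ℂ), (C Complex.I : MvPolynomial (Fin 5) ℂ) * (X 2 + (C Complex.I : MvPolynomial (Fin 5) ℂ) * X 3 + 4 * (X 0 + (C Complex.I : MvPolynomial (Fin 5) ℂ) * X 1 : MvPolynomial (Fin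 5) ℂ) * X 4 - 3 * (X 0 + (C Complex.I : MvPolynomial (Fin 5) ℂ) * X 1 : MvPolynomial (Fin 5) ℂ) ^ 2 * (X 2 - (C Complex.I : MvPolynomial (Fin 5) ℂ) * X 3) : MvPolynomial (Fin 5) ℂ), (X 0 + (C Complex.I : MvPolynomial (Fin 5) ℂ) * X 1 : MvPolynomial (Fin 5) ℂ) - (X 0 + (C Complex.I : MvPolynomial (Fin 5) ℂ) * X 1 : MvPolynomial (Fin 5) ℂ) ^ 3, (C Complex.I : MvPolynomial (Fin 5) ℂ) * ((X 0 + (C Complex.I : MvPolynomial (Fin 5) ℂ) * X 1 : MvPolynomial (Fin 5) ℂ) + (X 0 + (C Complex.I : MvPolynomial (Fin 5) ℂ) * X 1 : MvPolynomial (Fin 5) ℂ) ^ 3), 2 * (X 0 + (C Complex.I : MvPolynomial (Fin 5) ℂ) * X 1 : MvPolynomial (Fin 5) ℂ) ^ 2] i := by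
  fin_cases i <;> simp [P0, Pi.single_apply, map_ofNat, pd] <;> ring

theorem inv (ε : MvPolynomial (Fin 5) ℂ) (i : Fin 5) :
    aeval (fun j => X j + ε * pderiv j P0) (pderiv i P0) = pderiv i P0 := by
  set G := fun j => X j + ε * pderiv j P0
  have h1 : aeval G (X 0 + (C Complex.I : MvPolynomial (Fin 5) ℂ) * X 1 : MvPolynomial (Fin 5) ℂ) = (X 0 + (C Complex.I : MvPolynomial (Fin 5) ℂ) * X 1 : MvPolynomial (Fin 5) ℂ) := by
    simp [G, grad]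
    linear_combination ε * (X 2 + (C Complex.I : MvPolynomial (Fin 5) ℂ) * X 3 + 4 * (X 0 + (C Complex.I : MvPolynomial (Fin 5) ℂ) * X 1 : MvPolynomial (Fin 5) ℂ) * X 4 - 3 * (X 0 + (C Complex.I : MvPolynomial (Fin 5) ℂ) * X 1 : MvPolynomial (Fin 5) ℂ) ^ 2 * (X 2 - (C Complex.I : MvPolynomial (Fin 5) ℂ) * X 3) : MvPolynomial (Fin 5) ℂ) * hJ
  have h2 : aeval G (X 2 + (C Complex.I : MvPolynomial (Fin 5) ℂ) * X 3 + 4 * (X 0 + (C Complex.I : MvPolynomial (Fin 5) ℂ) * X 1 : MvPolynomial (Fin 5) ℂ) * X 4 - 3 * (X 0 + (C Complex.I : MvPolynomial (Fin 5) ℂ) * X 1 : MvPolynomial (Fin 5) ℂ) ^ 2 * (X 2 - (C Complex.I : MvPolynomial (Fin 5) ℂ) * X 3) : MvPolynomial (Fin 5) ℂ) = (X 2 + (C Complex.I : MvPolynomial (Fin 5) ℂ) * X 3 + 4 * (X 0 + (C Complex.I : MvPolynomial (Fin 5) ℂ) * X 1 : MvPolynomial (Fin 5) ℂ) * X 4 - 3 * (X 0 + (C Complex.I : MvPolynomial (Fin 5) ℂ) * X 1 : MvPolynomial (Fin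 5) ℂ) ^ 2 * (X 2 - (C Complex.I : MvPolynomial (Fin 5) ℂ) * X 3) : MvPolynomial (Fin 5) ℂ) := by
    rw [map_sub, map_add, map_mul, map_mul, map_mul, map_mul, map_pow, h1]
    simp [G, grad, map_ofNat]
    linear_combination ε * ((X 0 + (C Complex.I : MvPolynomial (Fin 5) ℂ) * X 1 : MvPolynomial (Fin 5) ℂ) + (X 0 + (C Complex.I : MvPolynomial (Fin 5) ℂ) * X 1 : MvPolynomial (Fin 5) ℂ) ^ 3) * (1 + 3 * (X 0 + (C Complex.I : MvPolynomial (Fin 5) ℂ) * X 1 : MvPolynomial (Fin 5) ℂ) ^ 2) * hJ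
  have h3 : aeval G (C Complex.I : MvPolynomial (Fin 5) ℂ) = (C Complex.I : MvPolynomial (Fin 5) ℂ) := by simp
  rw [grad]
  fin_cases i
  · exact h2
  · exact (map_mul _ _ _).trans (by rw [h2, h3]; rfl)
  · exact (map_sub _ _ _).trans (by rw [map_pow, h1]; rfl)
  · exact (map_mul _ _ _).trans (by rw [map_add, map_pow, h1, h3]; rfl)
  · exact (map_mul _ _ _).trans (by rw [map_pow, h1, map_ofNat]; rfl)

theorem nil : IsNilpotent (hes P0) := by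
  let e : Fin 5 → MvPolynomial (Fin 5) ℂ := ![1, (C Complex.I : MvPolynomial (Fin 5) ℂ), 0, 0, 0]
  let w : Fin 5 → MvPolynomial (Fin 5) ℂ :=
    ![2 * X 4 - 3 * (X 0 + (C Complex.I : MvPolynomial (Fin 5) ℂ) * X 1 : MvPolynomial (Fin 5) ℂ) * (X 2 - (C Complex.I : MvPolynomial (Fin 5) ℂ) * X 3), (C Complex.I : MvPolynomial (Fin 5) ℂ) * (2 * X 4 - 3 * (X 0 + (C Complex.I : MvPolynomial (Fin 5) ℂ) * X 1 : MvPolynomial (Fin 5) ℂ) * (X 2 - (C Complex.I : MvPolynomial (Fin 5) ℂ) * X 3)), 1 - 3 * (X 0 + (C Complex.I : MvPolynomial (Fin 5) ℂ) * X 1 : MvPolynomial (Fin 5) ℂ) ^ 2,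
      (C Complex.I : MvPolynomial (Fin 5) ℂ) * (1 + 3 * (X 0 + (C Complex.I : MvPolynomial (Fin 5) ℂ) * X 1 : MvPolynomial (Fin 5) ℂ) ^ 2), 4 * (X 0 + (C Complex.I : MvPolynomial (Fin 5) ℂ) * X 1 : MvPolynomial (Fin 5) ℂ)]
  have h : hes P0 = vecMulVec e w + vecMulVec w e := by
    ext1 i j
    rw [hes, of_apply, grad]
    fin_cases i <;> fin_cases j <;>
      simp [e, w, Pi.single_apply, vecMulVec_apply, pd] <;> ring
  have h1 : e ⬝ᵥ e = 0 := by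
    simp [e, dotProduct, Fin.sum_univ_five, hJ]
  have h2 : e ⬝ᵥ w = 0 := by
    simp [e, w, dotProduct, Fin.sum_univ_five]
    linear_combination (2 * X 4 - 3 * (X 0 + (C Complex.I : MvPolynomial (Fin 5) ℂ) * X 1 : MvPolynomial (Fin 5) ℂ) * (X 2 - (C Complex.I : MvPolynomial (Fin 5) ℂ) * X 3)) * hJ
  have h3 : w ⬝ᵥ e = 0 := by rw [dotProduct_comm, h2]
  refine ⟨3, ?_⟩
  rw [h]
  simp [pow_succ, add_mul, mul_add, vecMulVec_mul_vecMulVec, h1, h2, h3]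

end H11.HN

open H11.HN

theorem Pool.Agent.Results.MP_0f7e3c_al.Counter.result :
    ∃ P : MvPolynomial (Fin 5) ℂ, (∀ m : Fin 5 →₀ ℕ, m.degree < 2 → coeff m P = 0) ∧
      IsNilpotent (hes P) ∧ SelfInv P ∧
      ∀ Ξ : Set (Fin 5 → ℂ), (∀ α ∈ Ξ, ∀ β ∈ Ξ, α ⬝ᵥ β = 0) → ¬ InA Ξ P := by
  refine ⟨P0, fun m hm => ?_, nil, fun i => ⟨?_, ?_⟩, fun Ξ h hA => ?_⟩
  · have hu : (X 0 + C Complex.I * X 1 : MvPolynomial (Fin 5) ℂ).IsHomogeneous 1 :=
      (isHomogeneous_X _ _).add (isHomogeneous_C_mul_X _ _)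
    have a := (hu.mul ((isHomogeneous_X _ 2).add
      (isHomogeneous_C_mul_X Complex.I 3))).coeff_eq_zero (d := m) (by omega)
    have b := (((isHomogeneous_C _ 2).mul (hu.pow 2)).mul
      (isHomogeneous_X _ 4)).coeff_eq_zero (d := m) (by omega)
    have c := ((hu.pow 3).mul ((isHomogeneous_X _ 2).sub
      (isHomogeneous_C_mul_X Complex.I 3))).coeff_eq_zero (d := m) (by omega)
    rw [P0, coeff_sub, coeff_add, a, b, c]
    simp
  · have := inv 1 i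
    simp only [one_mul] at this
    rw [map_sub, this, aeval_X, add_sub_cancel_right]
  · have := inv (-1) i
    simp only [neg_one_mul, ← sub_eq_add_neg] at this
    rw [map_add, this, aeval_X, sub_add_cancel]
  · obtain ⟨q, hq, h1⟩ := hA 4
    have h2 := vec_mem Ξ q hq (Finsupp.single 0 2)
    have h3 : (fun i => coeff (Finsupp.single 0 2) (pderiv i q)) = ![0, 0, 0, 0, 2] := by
      ext i
      rw [coeff_pderiv, h1 _ (by simp), MvPolynomial.coeff_coe, ← coeff_pderiv, line, grad]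
      fin_cases i <;> simp [map_ofNat, Polynomial.coeff_X, Polynomial.coeff_X_pow, mul_assoc, ← pow_succ]
    have := iso Ξ h _ _ h2 h2
    rw [h3] at this
    simp [dotProduct, Fin.sum_univ_five] at this
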